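import Mathlib
import Pool.Agent.DDH.Glue

/-!
Alternating Hamilton paths in balanced 2-edge-coloured complete graphs.

Every balanced 2-colouring of the edges of the complete graph on `2n+1` vertices has, for every
two distinct vertices `u`, `v`, an alternating Hamilton path between `u` and `v`.
-/

namespace Pool.Agent.Results.MP_dd0645_co.AlternatingHamiltonPath

open Finset Pool.Agent.DDH

/-- In a balanced colouring the number `n` is even. -/
theorem even_of_balanced {V : Type*} [Fintype V] [DecidableEq V] (c : V → V → Bool)
    (hc : ∀ x y, c x y = c y x) (n : ℕ) (hV : Fintype.card V = 2 * n + 1)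
    (hbal : ∀ x, #{y | y ≠ x ∧ c x y = true} = n) : Even n := by
  classical
  let H : SimpleGraph V :=
    { Adj := fun x y => y ≠ x ∧ c x y = true
      symm := ⟨fun x y h => ⟨h.1.symm, by rw [hc]; exact h.2⟩⟩
      loopless := ⟨fun x h => h.1 rfl⟩ }
  have h1 := H.sum_degrees_eq_twice_card_edges
  have h2 : ∀ x, H.degree x = n := by
    intro x
    rw [← SimpleGraph.card_neighborFinset_eq_degree, SimpleGraph.neighborFinset_eq_filter]
    exact hbal x
  rw [sum_congr rfl (fun x _ => h2 x), sum_const, card_univ, hV, smul_eq_mul] at h1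
  have h3 : Even ((2 * n + 1) * n) := ⟨_, by rw [h1]; ring⟩
  rcases Nat.even_mul.1 h3 with h | h
  · exact absurd h (by simp)
  · exact h

/-- **Alternating Hamilton paths in balanced colourings.**  Let the edges of the complete graph
on a set `V` of `2n+1` vertices be coloured with two colours (`true`, `false`) so that every
vertex is incident with exactly `n` edges of each colour.  Then between any two distinct vertices
`u` and `v` there is a Hamilton path in which any two consecutive edges have different
colours. -/
theorem result (n : ℕ) (V : Type*) [Fintype V] [DecidableEq V]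
    (hV : Fintype.card V = 2 * n + 1) (c : Sym2 V → Bool)
    (hbal : ∀ x : V, #{y : V | y ≠ x ∧ c s(x, y) = true} = n ∧
      #{y : V | y ≠ x ∧ c s(x, y) = false} = n)
    (u v : V) (huv : u ≠ v) :
    ∃ p : (⊤ : SimpleGraph V).Walk u v,
      p.IsHamiltonian ∧ p.edges.IsChain (fun e f => c e ≠ c f) := by
  classical
  have hev : Even n := even_of_balanced (fun x y => c s(x, y)) (fun x y => by rw [Sym2.eq_swap]) n
    hV (fun x => (hbal x).1)
  have hn : 2 ≤ n := by
    have h1 : 2 ≤ Fintype.card V := by
      rw [← card_univ, ← card_pair huv]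
      exact card_le_card (subset_univ _)
    obtain ⟨k, hk⟩ := hev
    omega
  -- an alternating Hamilton sequence for one of the two orders
  obtain ⟨p, hends, hinj, halt⟩ : ∃ (p : ℕ → V),
      ((p 0 = u ∧ p (2 * n) = v) ∨ (p 0 = v ∧ p (2 * n) = u)) ∧
      (∀ i ≤ 2 * n, ∀ j ≤ 2 * n, p i = p j → i = j) ∧
      (∀ i, i + 2 ≤ 2 * n → c s(p i, p (i + 1)) ≠ c s(p (i + 1), p (i + 2))) := by
    by_cases huvc : c s(u, v) = true
    · obtain ⟨p, h1, h2, h3⟩ := glue_main (fun x y => c s(x, y)) (fun x y => by rw [Sym2.eq_swap])
        n hn hev hV hbal huv huvc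
      refine ⟨p, h1, h2, fun i hi => ?_⟩
      have e1 := h3 i (by omega)
      have e2 := h3 (i + 1) (by omega)
      rw [e1, show i + 2 = i + 1 + 1 from rfl, e2]
      rcases Nat.mod_two_eq_zero_or_one i with h | h
      · have h' : (i + 1) % 2 = 1 := by omega
        simp [h, h']
      · have h' : (i + 1) % 2 = 0 := by omega
        simp [h, h']
    · obtain ⟨p, h1, h2, h3⟩ := glue_main (fun x y => !(c s(x, y)))
        (fun x y => by rw [Sym2.eq_swap]) n hn hev hV
        (fun x => by
          have h := hbal x
          exact ⟨by simpa using h.2, by simpa using h.1⟩) huv (by simpa using huvc)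
      refine ⟨p, h1, h2, fun i hi => ?_⟩
      have e1 := h3 i (by omega)
      have e2 := h3 (i + 1) (by omega)
      intro heq
      rw [show i + 2 = i + 1 + 1 from rfl] at heq
      rw [heq, e2] at e1
      rcases Nat.mod_two_eq_zero_or_one i with h | h
      · have h' : (i + 1) % 2 = 1 := by omega
        simp [h, h'] at e1
      · have h' : (i + 1) % 2 = 0 := by omega
        simp [h, h'] at e1
  rcases hends with ⟨h0, h1⟩ | ⟨h0, h1⟩
  · have := exists_ham c p (2 * n) hV hinj halt
    rw [h0, h1] at this
    exact this
  · obtain ⟨p', hp'⟩ : ∃ p' : ℕ → V, ∀ i, p' i = p (2 * n - i) := ⟨_, fun _ => rfl⟩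
    have := exists_ham c p' (2 * n) hV
      (fun i hi j hj h => by
        rw [hp', hp'] at h
        have := hinj _ (by omega) _ (by omega) h
        omega)
      (fun i hi => by
        have h2 := halt (2 * n - (i + 2)) (by omega)
        have e1 : 2 * n - (i + 2) + 1 = 2 * n - (i + 1) := by omega
        have e2 : 2 * n - (i + 2) + 2 = 2 * n - i := by omega
        have s1 : s(p (2 * n - (i + 2)), p (2 * n - (i + 1))) =
          s(p (2 * n - (i + 1)), p (2 * n - (i + 2))) := Sym2.eq_swap
        have s2 : s(p (2 * n - (i + 1)), p (2 * n - i)) =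
          s(p (2 * n - i), p (2 * n - (i + 1))) := Sym2.eq_swap
        rw [e1, e2, s1, s2] at h2
        rw [hp', hp', hp']
        exact fun h3 => h2 h3.symm)
    have h0' : p' 0 = u := by rw [hp', Nat.sub_zero, h1]
    have h1' : p' (2 * n) = v := by rw [hp', Nat.sub_self, h0]
    rw [h0', h1'] at this
    exact this

end Pool.Agent.Results.MP_dd0645_co.AlternatingHamiltonPath
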